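import Mathlib

/-!
# Chambers of hyperplane arrangements in `ℝ^d`: definitions

Definitions for the edge-isoperimetric question on chamber graphs of general-position
arrangements (`MP_90133a_co`).
-/

namespace Q168.Arr

open Module Set

/-- The Euclidean space `ℝ^d`. -/
abbrev E (d : ℕ) := EuclideanSpace ℝ (Fin d)

/-- The affine subspaces of `ℝ^d`. -/
abbrev Flat (d : ℕ) := AffineSubspace ℝ (E d)

/-- The set of points of an affine subspace. -/
def pts {d : ℕ} (H : Flat d) : Set (E d) := (H : Set (E d))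

/-- The dimension of an affine subspace. -/
noncomputable def dimFlat {d : ℕ} (H : Flat d) : ℕ := finrank ℝ H.direction

/-- `x` and `y` lie strictly on opposite sides of `H`. -/
def Opposite {d : ℕ} (H : Flat d) (x y : E d) : Prop := H.SOppSide x y

/-- The intersection of the members of `T`. -/
def common {d : ℕ} (T : Finset (Flat d)) : Set (E d) := {x | ∀ H ∈ T, x ∈ pts H}

/-- General position: for every `m ≤ d`, any `m` members of `𝓗` meet in a (nonempty) affine
subspace of dimension `d - m`, and any `d + 1` members of `𝓗` have empty intersection.  (For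
`m = 1` this says that every member of `𝓗` is an affine hyperplane.) -/
def GeneralPosition {d : ℕ} (𝓗 : Finset (Flat d)) : Prop :=
  (∀ T ⊆ 𝓗, T.card ≤ d →
      ∃ A : Flat d, common T = pts A ∧ (pts A).Nonempty ∧ dimFlat A + T.card = d) ∧
    (∀ T ⊆ 𝓗, T.card = d + 1 → common T = ∅)

/-- The complement of the union of the hyperplanes. -/
def outside {d : ℕ} (𝓗 : Finset (Flat d)) : Set (E d) :=
  {x | ∀ H ∈ 𝓗, x ∉ pts H}

/-- The chambers of `𝓗`: the connected components of the complement of the union of the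
hyperplanes. -/
def chambers {d : ℕ} (𝓗 : Finset (Flat d)) : Set (Set (E d)) :=
  {C | ∃ x ∈ outside 𝓗, C = connectedComponentIn (outside 𝓗) x}

/-- The hyperplane `H` separates `C` and `D`: all points of `C` and all points of `D` lie
strictly on opposite sides of `H`. -/
def Separates {d : ℕ} (H : Flat d) (C D : Set (E d)) : Prop :=
  ∀ x ∈ C, ∀ y ∈ D, Opposite H x y

/-- A chamber is nonempty. -/
lemma chambers_nonempty {d : ℕ} {𝓗 : Finset (Flat d)} {C : Set (E d)}
    (hC : C ∈ chambers 𝓗) : C.Nonempty := by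
  obtain ⟨x, hx, rfl⟩ := hC
  exact ⟨x, mem_connectedComponentIn hx⟩

/-- Exactly one hyperplane of `𝓗` separates `C` and `D`. -/
def OneSeparates {d : ℕ} (𝓗 : Finset (Flat d)) (C D : Set (E d)) : Prop :=
  ∃! H, H ∈ 𝓗 ∧ Separates H C D

lemma OneSeparates.symm' {d : ℕ} {𝓗 : Finset (Flat d)} {C D : Set (E d)}
    (h : OneSeparates 𝓗 C D) : OneSeparates 𝓗 D C := by
  obtain ⟨H, ⟨hH, hs⟩, hu⟩ := h
  refine ⟨H, ⟨hH, fun x hx y hy => AffineSubspace.SOppSide.symm (hs y hy x hx)⟩, ?_⟩
  rintro K ⟨hK, hk⟩
  exact hu K ⟨hK, fun x hx y hy => AffineSubspace.SOppSide.symm (hk y hy x hx)⟩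

lemma not_oneSeparates_self {d : ℕ} {𝓗 : Finset (Flat d)} {C : Set (E d)} (hC : C.Nonempty) :
    ¬ OneSeparates 𝓗 C C := by
  rintro ⟨H, ⟨hH, hs⟩, -⟩
  obtain ⟨x, hx⟩ := hC
  exact H.not_sOppSide_self x (hs x hx x hx)

/-- The chamber graph: the vertices are the chambers, and two chambers are adjacent when exactly
one hyperplane of `𝓗` separates them. -/
def chamberGraph {d : ℕ} (𝓗 : Finset (Flat d)) : SimpleGraph (chambers 𝓗) where
  Adj C D := OneSeparates 𝓗 C.1 D.1
  symm := ⟨fun _ _ h => h.symm'⟩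
  loopless := ⟨fun C => not_oneSeparates_self (chambers_nonempty C.2)⟩

/-- The edge boundary of a set `S` of vertices: the edges with exactly one endpoint in `S`. -/
def edgeBoundary {V : Type*} (G : SimpleGraph V) (S : Set V) : Set (Sym2 V) :=
  {e | e ∈ G.edgeSet ∧ ∃ u v, u ∈ S ∧ v ∉ S ∧ e = s(u, v)}

/-! ### Sign vectors -/

section Signs

variable {d n : ℕ} (φ : Fin n → E d →ₗ[ℝ] ℝ) (b : Fin n → ℝ)

/-- The hyperplane `φ x = b`. -/
def hyp {d : ℕ} (φ : E d →ₗ[ℝ] ℝ) (b : ℝ) : Flat d where
  carrier := {x | φ x = b}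
  smul_vsub_vadd_mem' c p₁ p₂ p₃ h₁ h₂ h₃ := by
    have h1 : φ p₁ = b := h₁
    have h2 : φ p₂ = b := h₂
    have h3 : φ p₃ = b := h₃
    change φ (c • (p₁ -ᵥ p₂) +ᵥ p₃) = b
    simp [h1, h2, h3]

lemma mem_hyp {d : ℕ} {φ : E d →ₗ[ℝ] ℝ} {b : ℝ} {x : E d} : x ∈ hyp φ b ↔ φ x = b := Iff.rfl

lemma sOppSide_hyp {d : ℕ} {φ : E d →ₗ[ℝ] ℝ} {b : ℝ} {x y : E d} :
    (hyp φ b).SOppSide x y ↔ (φ x - b) * (φ y - b) < 0 := by
  constructor
  · rintro ⟨hw, hx, hy⟩
    rw [mem_hyp] at hx hy
    obtain ⟨p, hp, t, ⟨ht0, ht1⟩, rfl⟩ := AffineSubspace.wOppSide_iff_exists_wbtw.1 hw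
    rw [mem_hyp, AffineMap.lineMap_apply_module, map_add, map_smul, map_smul, smul_eq_mul,
      smul_eq_mul] at hp
    have h1 : (1 - t) * (φ x - b) + t * (φ y - b) = 0 := by linarith
    have hx' : φ x - b ≠ 0 := sub_ne_zero.2 hx
    have hy' : φ y - b ≠ 0 := sub_ne_zero.2 hy
    by_contra hcon
    push Not at hcon
    rcases lt_or_gt_of_ne hx' with h | h <;> rcases lt_or_gt_of_ne hy' with h' | h'
    · rcases ht0.eq_or_lt with h0 | h0
      · rw [← h0] at h1; linarith
      · nlinarith [mul_neg_of_pos_of_neg h0 h', mul_nonneg (sub_nonneg.2 ht1) (neg_nonneg.2 h.le)]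
    · nlinarith
    · nlinarith
    · rcases ht0.eq_or_lt with h0 | h0
      · rw [← h0] at h1; linarith
      · nlinarith [mul_pos h0 h', mul_nonneg (sub_nonneg.2 ht1) h.le]
  · intro h
    have hx : φ x - b ≠ 0 := fun h0 => by rw [h0] at h; simp at h
    have hy : φ y - b ≠ 0 := fun h0 => by rw [h0] at h; simp at h
    refine ⟨?_, by rw [mem_hyp]; exact sub_ne_zero.1 hx, by rw [mem_hyp]; exact sub_ne_zero.1 hy⟩
    rw [AffineSubspace.wOppSide_iff_exists_wbtw]
    have hne : (φ x - b) - (φ y - b) ≠ 0 := by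
      intro h0
      have : φ x - b = φ y - b := by linarith
      rw [this] at h
      nlinarith [mul_self_nonneg (φ y - b)]
    set u := φ x - b with hu
    set v := φ y - b with hv
    refine ⟨AffineMap.lineMap x y (u / (u - v)), ?_, u / (u - v), ⟨?_, ?_⟩, rfl⟩
    · rw [mem_hyp, AffineMap.lineMap_apply_module, map_add, map_smul, map_smul, smul_eq_mul,
        smul_eq_mul]
      have e1 : φ x = u + b := by rw [hu]; ring
      have e2 : φ y = v + b := by rw [hv]; ring
      rw [e1, e2]
      field_simp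
      ring
    · rcases lt_or_gt_of_ne hx with h1 | h1
      · have : 0 < v := by nlinarith
        exact div_nonneg_of_nonpos h1.le (by linarith)
      · have : v < 0 := by nlinarith
        exact div_nonneg h1.le (by linarith)
    · rcases lt_or_gt_of_ne hx with h1 | h1
      · have : 0 < v := by nlinarith
        rw [div_le_one_of_neg (by linarith)]; linarith
      · have : v < 0 := by nlinarith
        rw [div_le_one (by linarith)]; linarith

/-- The cell with sign vector `σ`. -/
def cell (σ : Fin n → Bool) : Set (E d) :=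
  {x | ∀ i, (σ i = true → b i < φ i x) ∧ (σ i = false → φ i x < b i)}

/-- The sign vector of a point. -/
noncomputable def sgn (x : E d) : Fin n → Bool := fun i => decide (b i < φ i x)

lemma mem_cell_sgn {x : E d} (hx : ∀ i, φ i x ≠ b i) : x ∈ cell φ b (sgn φ b x) := by
  intro i
  unfold sgn
  constructor
  · intro h; simpa using h
  · intro h
    have h' : ¬ b i < φ i x := by simpa using h
    exact lt_of_le_of_ne (not_lt.1 h') (hx i)

lemma cell_ne {σ : Fin n → Bool} {x : E d} (hx : x ∈ cell φ b σ) (i : Fin n) : φ i x ≠ b i := by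
  rcases h : σ i with _ | _
  · exact ((hx i).2 h).ne
  · exact ((hx i).1 h).ne'

lemma cell_eq {σ τ : Fin n → Bool} {x : E d} (hx : x ∈ cell φ b σ) (hy : x ∈ cell φ b τ) :
    σ = τ := by
  funext i
  rcases h : σ i with _ | _ <;> rcases h' : τ i with _ | _
  · rfl
  · exact absurd ((hx i).2 h) (not_lt.2 ((hy i).1 h').le)
  · exact absurd ((hx i).1 h) (not_lt.2 ((hy i).2 h').le)
  · rfl

lemma convex_cell (σ : Fin n → Bool) : Convex ℝ (cell φ b σ) := by
  intro x hx y hy s t hs ht hst i
  have hl : φ i (s • x + t • y) = s * φ i x + t * φ i y := by simp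
  have hb : b i = s * b i + t * b i := by rw [← add_mul, hst, one_mul]
  constructor
  · intro h
    rw [hl]
    have h1 := (hx i).1 h
    have h2 := (hy i).1 h
    rcases hs.eq_or_lt with h0 | h0
    · subst h0
      have : t = 1 := by linarith
      subst this; linarith
    · nlinarith [mul_pos h0 (sub_pos.2 h1), mul_nonneg ht (sub_nonneg.2 h2.le)]
  · intro h
    rw [hl]
    have h1 := (hx i).2 h
    have h2 := (hy i).2 h
    rcases hs.eq_or_lt with h0 | h0
    · subst h0
      have : t = 1 := by linarith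
      subst this; linarith
    · nlinarith [mul_pos h0 (sub_pos.2 h1), mul_nonneg ht (sub_nonneg.2 h2.le)]

/-- The points off all the hyperplanes. -/
def off : Set (E d) := {x | ∀ i, φ i x ≠ b i}

lemma component_eq {x : E d} (hx : x ∈ off φ b) :
    connectedComponentIn (off φ b) x = cell φ b (sgn φ b x) := by
  apply Subset.antisymm
  · intro y hy
    have hpre : IsPreconnected (connectedComponentIn (off φ b) x) :=
      isPreconnected_connectedComponentIn
    have hsub := connectedComponentIn_subset (off φ b) x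
    have hxm := mem_connectedComponentIn hx
    intro i
    have hcont : Continuous (φ i) := LinearMap.continuous_of_finiteDimensional _
    have him : IsPreconnected (φ i '' connectedComponentIn (off φ b) x) :=
      hpre.image _ hcont.continuousOn
    have hord := him.ordConnected
    unfold sgn
    constructor
    · intro h
      have h1 : b i < φ i x := by simpa using h
      by_contra h2
      have := hord.out (mem_image_of_mem _ hy) (mem_image_of_mem _ hxm)
        (⟨not_lt.1 h2, h1.le⟩ : b i ∈ Icc (φ i y) (φ i x))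
      obtain ⟨z, hz, hzb⟩ := this
      exact hsub hz i hzb
    · intro h
      have h1 : ¬ b i < φ i x := by simpa using h
      by_contra h2
      have := hord.out (mem_image_of_mem _ hxm) (mem_image_of_mem _ hy)
        (⟨not_lt.1 h1, not_lt.1 h2⟩ : b i ∈ Icc (φ i x) (φ i y))
      obtain ⟨z, hz, hzb⟩ := this
      exact hsub hz i hzb
  · exact (convex_cell φ b _).isPreconnected.subset_connectedComponentIn (mem_cell_sgn φ b hx)
      (fun y hy i => cell_ne φ b hy i)

/-- The arrangement of the hyperplanes `φ i x = b i`. -/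
noncomputable def arr : Finset (Flat d) := by
  classical exact Finset.univ.image fun i => hyp (φ i) (b i)

lemma mem_arr {H : Flat d} : H ∈ arr φ b ↔ ∃ i, hyp (φ i) (b i) = H := by
  classical
  unfold arr
  simp

lemma outside_arr : outside (arr φ b) = off φ b := by
  ext x
  simp only [outside, off, Set.mem_ofPred_eq, mem_arr]
  constructor
  · intro h i
    exact h _ ⟨i, rfl⟩
  · rintro h _ ⟨i, rfl⟩
    exact h i

lemma mem_chambers_arr {C : Set (E d)} :
    C ∈ chambers (arr φ b) ↔ ∃ σ, (cell φ b σ).Nonempty ∧ C = cell φ b σ := by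
  unfold chambers
  rw [outside_arr]
  constructor
  · rintro ⟨x, hx, rfl⟩
    rw [component_eq φ b hx]
    exact ⟨_, ⟨x, mem_cell_sgn φ b hx⟩, rfl⟩
  · rintro ⟨σ, ⟨x, hx⟩, rfl⟩
    have hoff : x ∈ off φ b := fun i => cell_ne φ b hx i
    refine ⟨x, hoff, ?_⟩
    rw [component_eq φ b hoff, cell_eq φ b hx (mem_cell_sgn φ b hoff)]

lemma separates_iff {σ τ : Fin n → Bool} (hσ : (cell φ b σ).Nonempty)
    (hτ : (cell φ b τ).Nonempty) (i : Fin n) :
    Separates (hyp (φ i) (b i)) (cell φ b σ) (cell φ b τ) ↔ σ i ≠ τ i := by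
  constructor
  · intro h he
    obtain ⟨x, hx⟩ := hσ
    obtain ⟨y, hy⟩ := hτ
    have := sOppSide_hyp.1 (show (hyp (φ i) (b i)).SOppSide x y from h x hx y hy)
    rcases h' : σ i with _ | _
    · have h1 := (hx i).2 h'
      have h2 := (hy i).2 (he ▸ h')
      nlinarith
    · have h1 := (hx i).1 h'
      have h2 := (hy i).1 (he ▸ h')
      nlinarith
  · intro h x hx y hy
    unfold Opposite
    rw [sOppSide_hyp]
    rcases h1 : σ i with _ | _ <;> rcases h2 : τ i with _ | _
    · exact absurd (h1.trans h2.symm) h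
    · have := (hx i).2 h1
      have := (hy i).1 h2
      nlinarith
    · have := (hx i).1 h1
      have := (hy i).2 h2
      nlinarith
    · exact absurd (h1.trans h2.symm) h

/-- Adjacent chambers have sign vectors that differ in exactly one place. -/
lemma adj_sign (hinj : Function.Injective fun i => hyp (φ i) (b i))
    {C D : chambers (arr φ b)} (h : (chamberGraph (arr φ b)).Adj C D)
    {σ τ : Fin n → Bool} (hC : C.1 = cell φ b σ) (hD : D.1 = cell φ b τ) :
    ∃ i, τ = Function.update σ i (!σ i) := by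
  have hσ : (cell φ b σ).Nonempty := hC ▸ chambers_nonempty C.2
  have hτ : (cell φ b τ).Nonempty := hD ▸ chambers_nonempty D.2
  obtain ⟨H, ⟨hH, hs⟩, hu⟩ := h
  obtain ⟨i, rfl⟩ := (mem_arr φ b).1 hH
  rw [hC, hD, separates_iff φ b hσ hτ] at hs
  refine ⟨i, ?_⟩
  funext j
  by_cases hj : j = i
  · subst hj
    simp only [Function.update_self]
    revert hs
    cases σ j <;> cases τ j <;> simp
  · rw [Function.update_of_ne hj]
    by_contra hne
    have h2 : Separates (hyp (φ j) (b j)) C.1 D.1 := by
      rw [hC, hD, separates_iff φ b hσ hτ]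
      exact fun h' => hne h'.symm
    exact hj (hinj (hu _ ⟨(mem_arr φ b).2 ⟨j, rfl⟩, h2⟩))

end Signs

end Q168.Arr
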