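import Pool.Agent.Q168.Arr.Count

/-!
# The arrangement of twenty-four planes: data

The codes of the chambers of the set, as a search tree.
-/

namespace Q168.Arr.Ex

/-- A part of the tree. -/
def taaaa : Tr :=
  (.N (.N (.N (.N (.N (.N (.N .L 7 .L) 23 .L) 31 (.N .L 55 .L)) 63 (.N (.N (.N .L 277 .L) 279 .L) 287 (.N .L 311 .L))) 319 (.N (.N (.N (.N .L 1024 .L) 1026 .L) 1027 (.N .L 1028 .L)) 1029 (.N (.N .L 1030 .L) 1031 (.N .L 1047 .L)))) 1280 (.N (.N (.N (.N (.N .L 1284 .L) 1285 .L) 1287 (.N .L 1300 .L)) 1301 (.N (.N .L 1303 .L) 1335 (.N .L 1536 .L))) 2325 (.N (.N (.N (.N .L 2327 .L) 2333 .L) 2335 (.N .L 2357 .L)) 2359 (.N (.N .L 2365 .L) 2367 (.N .L 2431 .L))))) 2837 (.N (.N (.N (.N (.N (.N .L 2844 .L) 2845 .L) 2869 (.N .L 2876 .L)) 2877 (.N (.N .L 2879 .L) 2940 (.N .L 2941 .L))) 2943 (.N (.N (.N (.N .L 3064 .L) 3068 .L) 3069 (.N .L 3071 .L)) 3072 (.N (.N .L 3076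 .L) 3328 (.N .L 3332 .L)))) 3333 (.N (.N (.N (.N (.N .L 3348 .L) 3349 .L) 3351 (.N .L 3357 .L)) 3381 (.N (.N .L 3383 .L) 3584 (.N .L 3840 .L))) 3844 (.N (.N (.N (.N .L 3848 .L) 3852 .L) 3860 (.N .L 3861 .L)) 3864 (.N (.N .L 3868 .L) 3869 (.N .L 3872 .L))))))

/-- A part of the tree. -/
def taaab : Tr :=
  (.N (.N (.N (.N (.N (.N (.N .L 3880 .L) 3884 .L) 3892 (.N .L 3893 .L)) 3896 (.N (.N (.N .L 3900 .L) 3901 .L) 3904 (.N .L 3912 .L))) 3928 (.N (.N (.N (.N .L 3932 .L) 3936 .L) 3944 (.N .L 3960 .L)) 3964 (.N (.N .L 3968 .L) 4032 (.N .L 4040 .L)))) 4064 (.N (.N (.N (.N (.N .L 4072 .L) 4088 .L) 4092 (.N .L 4103 .L)) 4119 (.N (.N .L 4127 .L) 4373 (.N .L 4375 .L))) 4381 (.N (.N (.N (.N .L 4383 .L) 4415 .L) 5120 (.N .L 5122 .L)) 5123 (.N (.N .L 5124 .L) 5125 (.N .L 5126 .L))))) 5127 (.N (.N (.N (.N (.N (.N .L 5141 .L) 5143 .L) 5380 (.N .L 5381 .L)) 5383 (.N (.N .L 5396 .L)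 5397 (.N .L 5399 .L))) 5405 (.N (.N (.N (.N .L 5632 .L) 6421 .L) 6423 (.N .L 6429 .L)) 6431 (.N (.N .L 6461 .L) 6463 (.N .L 6527 .L)))) 6940 (.N (.N (.N (.N (.N .L 6941 .L) 6972 .L) 6973 (.N .L 6975 .L)) 7004 (.N (.N .L 7036 .L) 7037 (.N .L 7039 .L))) 7160 (.N (.N (.N (.N .L 7164 .L) 7165 .L) 7167 (.N .L 7168 .L)) 7172 (.N (.N .L 7424 .L) 7428 (.N .L 7444 .L))))))

/-- A part of the tree. -/
def taaba : Tr :=
  (.N (.N (.N (.N (.N (.N (.N .L 7452 .L) 7453 .L) 7680 (.N .L 7936 .L)) 7940 (.N (.N (.N .L 7944 .L) 7948 .L) 7956 (.N .L 7957 .L))) 7960 (.N (.N (.N (.N .L 7964 .L) 7965 .L) 7996 (.N .L 8000 .L)) 8008 (.N (.N .L 8024 .L) 8028 (.N .L 8040 .L)))) 8056 (.N (.N (.N (.N (.N .L 8060 .L) 8064 .L) 8128 (.N .L 8136 .L)) 8152 (.N (.N .L 8168 .L) 8184 (.N .L 8188 .L))) 12295 (.N (.N (.N (.N .L 12311 .L) 12319 .L) 12565 (.N .L 12567 .L)) 12573 (.N (.N .L 12575 .L) 12607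 (.N .L 12671 .L))))) 13312 (.N (.N (.N (.N (.N (.N .L 13314 .L) 13315 .L) 13316 (.N .L 13317 .L)) 13318 (.N (.N .L 13319 .L) 13332 (.N .L 13333 .L))) 13335 (.N (.N (.N (.N .L 13572 .L) 13573 .L) 13588 (.N .L 13589 .L)) 13591 (.N (.N .L 13597 .L) 13599 (.N .L 13824 .L)))) 14621 (.N (.N (.N (.N (.N .L 14623 .L) 14653 .L) 14655 (.N .L 14719 .L)) 15132 (.N (.N .L 15133 .L) 15135 (.N .L 15164 .L))) 15165 (.N (.N (.N (.N .L 15167 .L) 15196 .L) 15228 (.N .L 15229 .L)) 15231 (.N (.N .L 15352 .L) 15356 (.N .L 15357 .L))))))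

/-- A part of the tree. -/
def taabb : Tr :=
  (.N (.N (.N (.N (.N (.N (.N .L 15360 .L) 15364 .L) 15616 (.N .L 15620 .L)) 15636 (.N (.N .L 15637 .L) 15644 (.N .L 15645 .L))) 15872 (.N (.N (.N (.N .L 15876 .L) 16128 .L) 16132 (.N .L 16136 .L)) 16140 (.N (.N .L 16148 .L) 16152 (.N .L 16156 .L)))) 16157 (.N (.N (.N (.N (.N .L 16192 .L) 16200 .L) 16216 (.N .L 16220 .L)) 16248 (.N (.N .L 16252 .L) 16256 (.N .L 16320 .L))) 16328 (.N (.N (.N (.N .L 16344 .L) 16360 .L) 16376 (.N .L 16380 .L)) 28679 (.N (.N .L 28695 .L) 28701 (.N .L 28703 .L))))) 28951 (.N (.N (.N (.N (.N (.N .L 28957 .L) 28959 .L) 28991 (.N .L 29055 .L)) 29696 (.N (.N .L 29698 .L) 29699 (.N .L 29700 .L))) 29701 (.N (.N (.N (.N .L 29702 .L) 29703 .L) 29716 (.N .L 29717 .L)) 29719 (.N (.N .L 29725 .L) 29727 (.N .L 29956 .L)))) 29972 (.N (.N (.N (.N (.N .L 29973 .L) 29975 .L) 29980 (.N .L 29981 .L)) 29983 (.N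 (.N .L 30208 .L) 31004 (.N .L 31005 .L))) 31007 (.N (.N (.N (.N .L 31039 .L) 31103 .L) 31516 (.N .L 31517 .L)) 31519 (.N (.N .L 31548 .L) 31549 (.N .L 31551 .L))))))

/-- A part of the tree. -/
def tabaa : Tr :=
  (.N (.N (.N (.N (.N (.N (.N .L 31581 .L) 31612 .L) 31613 (.N .L 31615 .L)) 31708 (.N (.N (.N .L 31736 .L) 31740 .L) 31741 (.N .L 31743 .L))) 31744 (.N (.N (.N (.N .L 31748 .L) 32004 .L) 32020 (.N .L 32021 .L)) 32028 (.N (.N .L 32029 .L) 32256 (.N .L 32260 .L)))) 32512 (.N (.N (.N (.N (.N .L 32516 .L) 32520 .L) 32524 (.N .L 32532 .L)) 32536 (.N (.N .L 32540 .L) 32541 (.N .L 32576 .L))) 32584 (.N (.N (.N (.N .L 32600 .L) 32604 .L) 32632 (.N .L 32636 .L)) 32640 (.N (.N .L 32704 .L) 32712 (.N .L 32728 .L))))) 32732 (.N (.N (.N (.N (.N (.N .L 32744 .L) 32760 .L) 32764 (.N .L 61447 .L)) 61455 (.N (.N .L 61463 .L) 61468 (.N .L 61469 .L))) 61470 (.N (.N (.N (.N .L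 61471 .L) 61532 .L) 61533 (.N .L 61535 .L)) 61724 (.N (.N .L 61725 .L) 61727 (.N .L 61759 .L)))) 61789 (.N (.N (.N (.N (.N .L 61791 .L) 61823 .L) 62464 (.N .L 62466 .L)) 62467 (.N (.N .L 62468 .L) 62469 (.N .L 62470 .L))) 62471 (.N (.N (.N (.N .L 62472 .L) 62476 .L) 62478 (.N .L 62479 .L)) 62484 (.N (.N .L 62485 .L) 62486 (.N .L 62487 .L))))))

/-- A part of the tree. -/
def tabab : Tr :=
  (.N (.N (.N (.N (.N (.N (.N .L 62493 .L) 62494 .L) 62495 (.N .L 62536 .L)) 62540 (.N (.N .L 62556 .L) 62724 (.N .L 62740 .L))) 62741 (.N (.N (.N (.N .L 62748 .L) 62749 .L) 62976 (.N .L 62984 .L)) 63516 (.N (.N .L 63517 .L) 63580 (.N .L 63581 .L)))) 63583 (.N (.N (.N (.N (.N .L 63772 .L) 63773 .L) 63775 (.N .L 63807 .L)) 63836 (.N (.N .L 63837 .L) 63839 (.N .L 63871 .L))) 64028 (.N (.N (.N (.N .L 64092 .L) 64220 .L) 64284 (.N .L 64285 .L)) 64287 (.N (.N .L 64317 .L) 64319 (.N .L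 64348 .L))))) 64349 (.N (.N (.N (.N (.N (.N .L 64351 .L) 64380 .L) 64381 (.N .L 64383 .L)) 64472 (.N (.N .L 64476 .L) 64477 (.N .L 64479 .L))) 64504 (.N (.N (.N (.N .L 64508 .L) 64509 .L) 64511 (.N .L 64512 .L)) 64516 (.N (.N .L 64520 .L) 64524 (.N .L 64532 .L)))) 64540 (.N (.N (.N (.N (.N .L 64584 .L) 64588 .L) 64604 (.N .L 64772 .L)) 64780 (.N (.N .L 64788 .L) 64796 (.N .L 64797 .L))) 65024 (.N (.N (.N (.N .L 65028 .L) 65032 .L) 65036 (.N .L 65052 .L)) 65088 (.N (.N .L 65096 .L) 65100 (.N .L 65112 .L))))))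

/-- A part of the tree. -/
def tabba : Tr :=
  (.N (.N (.N (.N (.N (.N (.N .L 65152 .L) 65216 .L) 65224 (.N .L 65228 .L)) 65240 (.N (.N (.N .L 65244 .L) 65280 .L) 65284 (.N .L 65288 .L))) 65292 (.N (.N (.N (.N .L 65300 .L) 65304 .L) 65308 (.N .L 65344 .L)) 65352 (.N (.N .L 65356 .L) 65368 (.N .L 65372 .L)))) 65408 (.N (.N (.N (.N (.N .L 65472 .L) 65480 .L) 65496 (.N .L 65500 .L)) 65512 (.N (.N .L 65528 .L) 65532 (.N .L 126983 .L))) 126991 (.N (.N (.N (.N .L 126999 .L) 127004 .L) 127005 (.N .L 127006 .L)) 127007 (.N (.N .L 127068 .L) 127069 (.N .L 127071 .L))))) 128000 (.N (.N (.N (.N (.N (.N .L 128002 .L) 128003 .L) 128004 (.N .L 128006 .L)) 128007 (.N (.N .L 128008 .L) 128012 (.N .L 128014 .L))) 128015 (.N (.N (.N (.N .L 128028 .L) 128030 .L) 128031 (.N .L 128064 .L)) 128072 (.N (.N .L 128076 .L) 128092 (.N .L 128128 .L)))) 128512 (.N (.N (.N (.N (.N .L 128520 .L)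 128576 .L) 128584 (.N .L 128640 .L)) 129116 (.N (.N .L 129628 .L) 129756 (.N .L 130012 .L))) 130056 (.N (.N (.N (.N .L 130120 .L) 130124 .L) 130140 (.N .L 130560 .L)) 130568 (.N (.N .L 130624 .L) 130632 (.N .L 130636 .L))))))

/-- A part of the tree. -/
def tabbb : Tr :=
  (.N (.N (.N (.N (.N (.N (.N .L 130688 .L) 130752 .L) 130760 (.N .L 130764 .L)) 130776 (.N (.N .L 130780 .L) 130944 (.N .L 131008 .L))) 131016 (.N (.N (.N (.N .L 131032 .L) 131036 .L) 4194311 (.N .L 4194327 .L)) 4194359 (.N (.N .L 4194367 .L) 4194583 (.N .L 4194615 .L)))) 4194623 (.N (.N (.N (.N (.N .L 4195328 .L) 4195330 .L) 4195331 (.N .L 4195332 .L)) 4195333 (.N (.N .L 4195334 .L) 4195335 (.N .L 4195351 .L))) 4195383 (.N (.N (.N (.N .L 4195584 .L) 4195588 .L) 4195589 (.N .L 4195590 .L)) 4195591 (.N (.N .L 4195605 .L) 4195607 (.N .L 4195621 .L))))) 4195623 (.N (.N (.N (.N (.N (.N .L 4195637 .L)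 4195639 .L) 4195840 (.N .L 4196661 .L)) 4196663 (.N (.N .L 4196669 .L) 4196671 (.N .L 4196735 .L))) 4197173 (.N (.N (.N (.N .L 4197180 .L) 4197181 .L) 4197183 (.N .L 4197244 .L)) 4197245 (.N (.N .L 4197247 .L) 4197368 (.N .L 4197372 .L)))) 4197373 (.N (.N (.N (.N (.N .L 4197375 .L) 4197376 .L) 4197632 (.N .L 4197636 .L)) 4197637 (.N (.N .L 4197652 .L) 4197653 (.N .L 4197655 .L))) 4197668 (.N (.N (.N (.N .L 4197669 .L) 4197684 .L) 4197685 (.N .L 4197687 .L)) 4197888 (.N (.N .L 4198144 .L) 4198148 (.N .L 4198164 .L))))))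

/-- A part of the tree. -/
def tbaaa : Tr :=
  (.N (.N (.N (.N (.N (.N (.N .L 4198176 .L) 4198180 .L) 4198181 (.N .L 4198184 .L)) 4198188 (.N (.N (.N .L 4198196 .L) 4198197 .L) 4198200 (.N .L 4198204 .L))) 4198205 (.N (.N (.N (.N .L 4198208 .L) 4198240 .L) 4198248 (.N .L 4198264 .L)) 4198268 (.N (.N .L 4198272 .L) 4198336 (.N .L 4198368 .L)))) 4198376 (.N (.N (.N (.N (.N .L 4198392 .L) 4198396 .L) 6291463 (.N .L 6291479 .L)) 6291495 (.N (.N .L 6291511 .L) 6291767 (.N .L 6291775 .L))) 6292480 (.N (.N (.N (.N .L 6292482 .L) 6292483 .L) 6292484 (.N .L 6292486 .L)) 6292487 (.N (.N .L 6292503 .L) 6292516 (.N .L 6292518 .L))))) 6292519 (.N (.N (.N (.N (.N (.N .L 6292535 .L) 6292736 .L) 6292740 (.N .L 6292741 .L)) 6292742 (.N (.N .L 6292743 .L) 6292759 (.N .L 6292768 .L))) 6292772 (.N (.N (.N (.N .L 6292773 .L) 6292774 .L) 6292775 (.N .L 6292789 .L)) 6292791 (.N (.N .L 6292992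 .L) 6293248 (.N .L 6293813 .L)))) 6293815 (.N (.N (.N (.N (.N .L 6293821 .L) 6293823 .L) 6293887 (.N .L 6294324 .L)) 6294325 (.N (.N .L 6294327 .L) 6294332 (.N .L 6294333 .L))) 6294335 (.N (.N (.N (.N .L 6294392 .L) 6294396 .L) 6294397 (.N .L 6294399 .L)) 6294520 (.N (.N .L 6294524 .L) 6294525 (.N .L 6294527 .L))))))

/-- A part of the tree. -/
def tbaab : Tr :=
  (.N (.N (.N (.N (.N (.N (.N .L 6294784 .L) 6294788 .L) 6294789 (.N .L 6294816 .L)) 6294820 (.N (.N .L 6294821 .L) 6294823 (.N .L 6294837 .L))) 6294839 (.N (.N (.N (.N .L 6295040 .L) 6295296 .L) 6295300 (.N .L 6295328 .L)) 6295332 (.N (.N .L 6295333 .L) 6295335 (.N .L 6295336 .L)))) 6295340 (.N (.N (.N (.N (.N .L 6295344 .L) 6295348 .L) 6295349 (.N .L 6295351 .L)) 6295352 (.N (.N .L 6295356 .L) 6295357 (.N .L 6295360 .L))) 6295392 (.N (.N (.N (.N .L 6295400 .L) 6295416 .L) 6295420 (.N .L 6295424 .L)) 6295488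 (.N (.N .L 6295520 .L) 6295528 (.N .L 6295544 .L))))) 6295548 (.N (.N (.N (.N (.N (.N .L 7340039 .L) 7340055 .L) 7340071 (.N .L 7340087 .L)) 7340343 (.N (.N .L 7340351 .L) 7341056 (.N .L 7341058 .L))) 7341059 (.N (.N (.N (.N .L 7341060 .L) 7341062 .L) 7341063 (.N .L 7341088 .L)) 7341090 (.N (.N .L 7341092 .L) 7341094 (.N .L 7341095 .L)))) 7341111 (.N (.N (.N (.N (.N .L 7341312 .L) 7341316 .L) 7341344 (.N .L 7341348 .L)) 7341349 (.N (.N .L 7341350 .L) 7341351 (.N .L 7341367 .L))) 7341568 (.N (.N (.N (.N .L 7341824 .L) 7341856 .L) 7342391 (.N .L 7342399 .L)) 7342463 (.N (.N .L 7342900 .L) 7342901 (.N .L 7342903 .L))))))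

/-- A part of the tree. -/
def tbaba : Tr :=
  (.N (.N (.N (.N (.N (.N (.N .L 7342909 .L) 7342911 .L) 7342968 (.N .L 7342972 .L)) 7342973 (.N (.N (.N .L 7342975 .L) 7343096 .L) 7343100 (.N .L 7343101 .L))) 7343103 (.N (.N (.N (.N .L 7343360 .L) 7343392 .L) 7343396 (.N .L 7343397 .L)) 7343399 (.N (.N .L 7343415 .L) 7343616 (.N .L 7343872 .L)))) 7343904 (.N (.N (.N (.N (.N .L 7343908 .L) 7343909 .L) 7343911 (.N .L 7343912 .L)) 7343920 (.N (.N .L 7343924 .L) 7343925 (.N .L 7343927 .L))) 7343928 (.N (.N (.N (.N .L 7343932 .L) 7343936 .L) 7343968 (.N .L 7343976 .L)) 7343984 (.N (.N .L 7343992 .L) 7343996 (.N .L 7344000 .L))))) 7344064 (.N (.N (.N (.N (.N (.N .L 7344096 .L) 7344104 .L) 7344120 (.N .L 7471111 .L)) 7471127 (.N (.N .L 7471143 .L) 7471159 (.N .L 7471415 .L))) 7471423 (.N (.N (.N (.N .L 7472128 .L) 7472130 .L) 7472131 (.N .L 7472134 .L)) 7472135 (.N (.N .L 7472160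 .L) 7472162 (.N .L 7472163 .L)))) 7472164 (.N (.N (.N (.N (.N .L 7472166 .L) 7472167 .L) 7472183 (.N .L 7472384 .L)) 7472416 (.N (.N .L 7472418 .L) 7472419 (.N .L 7472420 .L))) 7472421 (.N (.N (.N (.N .L 7472422 .L) 7472423 .L) 7472439 (.N .L 7472640 .L)) 7472672 (.N (.N .L 7472896 .L) 7472928 (.N .L 7473463 .L))))))

/-- A part of the tree. -/
def tbabb : Tr :=
  (.N (.N (.N (.N (.N (.N (.N .L 7473535 .L) 7473972 .L) 7473973 (.N .L 7473975 .L)) 7473980 (.N (.N .L 7473981 .L) 7473983 (.N .L 7474040 .L))) 7474044 (.N (.N (.N (.N .L 7474045 .L) 7474047 .L) 7474168 (.N .L 7474172 .L)) 7474173 (.N (.N .L 7474175 .L) 7474464 (.N .L 7474468 .L)))) 7474469 (.N (.N (.N (.N (.N .L 7474470 .L) 7474471 .L) 7474487 (.N .L 7474688 .L)) 7474944 (.N (.N .L 7474976 .L) 7474980 (.N .L 7474981 .L))) 7474982 (.N (.N (.N (.N .L 7474983 .L) 7474992 .L) 7474996 (.N .L 7474997 .L)) 7474999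 (.N (.N .L 7475000 .L) 7475004 (.N .L 7475008 .L))))) 7475040 (.N (.N (.N (.N (.N (.N .L 7475048 .L) 7475056 .L) 7475064 (.N .L 7475068 .L)) 7475072 (.N (.N .L 7475104 .L) 7475136 (.N .L 7475168 .L))) 7475176 (.N (.N (.N (.N .L 7475192 .L) 7733255 .L) 7733271 (.N .L 7733287 .L)) 7733303 (.N (.N .L 7733559 .L) 7733567 (.N .L 7734272 .L)))) 7734274 (.N (.N (.N (.N (.N .L 7734275 .L) 7734279 .L) 7734304 (.N .L 7734306 .L)) 7734307 (.N (.N .L 7734311 .L) 7734327 (.N .L 7734560 .L))) 7734562 (.N (.N (.N (.N .L 7734563 .L) 7734564 .L) 7734566 (.N .L 7734567 .L)) 7734583 (.N (.N .L 7734784 .L) 7734816 (.N .L 7735040 .L))))))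

/-- A part of the tree. -/
def tbbaa : Tr :=
  (.N (.N (.N (.N (.N (.N (.N .L 7735607 .L) 7735615 .L) 7735679 (.N .L 7736116 .L)) 7736117 (.N (.N (.N .L 7736119 .L) 7736124 .L) 7736125 (.N .L 7736127 .L))) 7736184 (.N (.N (.N (.N .L 7736188 .L) 7736189 .L) 7736191 (.N .L 7736312 .L)) 7736316 (.N (.N .L 7736317 .L) 7736319 (.N .L 7736608 .L)))) 7736610 (.N (.N (.N (.N (.N .L 7736612 .L) 7736614 .L) 7736615 (.N .L 7736631 .L)) 7736832 (.N (.N .L 7737088 .L) 7737120 (.N .L 7737122 .L))) 7737124 (.N (.N (.N (.N .L 7737125 .L) 7737126 .L) 7737127 (.N .L 7737136 .L)) 7737140 (.N (.N .L 7737141 .L) 7737143 (.N .L 7737144 .L))))) 7737148 (.N (.N (.N (.N (.N (.N .L 7737184 .L) 7737192 .L) 7737200 (.N .L 7737204 .L)) 7737208 (.N (.N .L 7737212 .L) 7737216 (.N .L 7737248 .L))) 7737280 (.N (.N (.N (.N .L 7737312 .L) 7737320 .L) 7737336 (.N .L 8257543 .L)) 8257559 (.N (.N .L 8257575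 .L) 8257591 (.N .L 8257831 .L)))) 8257847 (.N (.N (.N (.N (.N .L 8257855 .L) 8258560 .L) 8258562 (.N .L 8258563 .L)) 8258567 (.N (.N .L 8258592 .L) 8258594 (.N .L 8258595 .L))) 8258599 (.N (.N (.N (.N .L 8258615 .L) 8258848 .L) 8258850 (.N .L 8258851 .L)) 8258854 (.N (.N .L 8258855 .L) 8258871 (.N .L 8259072 .L))))))

/-- A part of the tree. -/
def tbbab : Tr :=
  (.N (.N (.N (.N (.N (.N (.N .L 8259328 .L) 8259360 .L) 8259362 (.N .L 8259363 .L)) 8259895 (.N (.N .L 8259903 .L) 8259967 (.N .L 8260400 .L))) 8260401 (.N (.N (.N (.N .L 8260404 .L) 8260405 .L) 8260407 (.N .L 8260412 .L)) 8260413 (.N (.N .L 8260415 .L) 8260464 (.N .L 8260465 .L)))) 8260468 (.N (.N (.N (.N (.N .L 8260469 .L) 8260472 .L) 8260473 (.N .L 8260476 .L)) 8260477 (.N (.N .L 8260479 .L) 8260592 (.N .L 8260600 .L))) 8260604 (.N (.N (.N (.N .L 8260605 .L) 8260607 .L) 8260896 (.N .L 8260898 .L)) 8260899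 (.N (.N .L 8260902 .L) 8260903 (.N .L 8260919 .L))))) 8261120 (.N (.N (.N (.N (.N (.N .L 8261152 .L) 8261376 .L) 8261408 (.N .L 8261409 .L)) 8261410 (.N (.N .L 8261411 .L) 8261412 (.N .L 8261413 .L))) 8261414 (.N (.N (.N (.N .L 8261415 .L) 8261424 .L) 8261425 (.N .L 8261428 .L)) 8261429 (.N (.N .L 8261431 .L) 8261436 (.N .L 8261472 .L)))) 8261480 (.N (.N (.N (.N (.N .L 8261488 .L) 8261492 .L) 8261496 (.N .L 8261500 .L)) 8261504 (.N (.N .L 8261536 .L) 8261568 (.N .L 8261600 .L))) 8261608 (.N (.N (.N (.N .L 8261616 .L) 8261624 .L) 8450079 (.N .L 8450140 .L)) 8450141 (.N (.N .L 8450143 .L) 8450399 (.N .L 8450527 .L))))))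

/-- A part of the tree. -/
def tbbba : Tr :=
  (.N (.N (.N (.N (.N (.N (.N .L 8452189 .L) 8452191 .L) 8452444 (.N .L 8452445 .L)) 8452447 (.N (.N (.N .L 8452572 .L) 8452573 .L) 8452575 (.N .L 8452700 .L))) 8452828 (.N (.N (.N (.N .L 8452956 .L) 8452957 .L) 8452959 (.N .L 8453080 .L)) 8453084 (.N (.N .L 8453085 .L) 8453087 (.N .L 8454104 .L)))) 8454108 (.N (.N (.N (.N (.N .L 8515591 .L) 8515598 .L) 8515599 (.N .L 8515607 .L)) 8515612 (.N (.N .L 8515613 .L) 8515614 (.N .L 8515615 .L))) 8515676 (.N (.N (.N (.N .L 8515677 .L) 8515678 .L) 8515679 (.N .L 8515726 .L)) 8515727 (.N (.N .L 8515742 .L) 8515743 (.N .L 8515784 .L))))) 8515786 (.N (.N (.N (.N (.N (.N .L 8515788 .L) 8515790 .L) 8515791 (.N .L 8515800 .L)) 8515802 (.N (.N .L 8515804 .L) 8515805 (.N .L 8515806 .L))) 8515807 (.N (.N (.N (.N .L 8515935 .L) 8516063 .L) 8516296 (.N .L 8516312 .L)) 8516316 (.N (.N .L 8516608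 .L) 8516610 (.N .L 8516611 .L)))) 8516612 (.N (.N (.N (.N (.N .L 8516614 .L) 8516615 .L) 8516616 (.N .L 8516618 .L)) 8516620 (.N (.N .L 8516622 .L) 8516623 (.N .L 8516636 .L))) 8516638 (.N (.N (.N (.N .L 8516639 .L) 8516672 .L) 8516680 (.N .L 8516684 .L)) 8516700 (.N (.N .L 8516702 .L) 8516736 (.N .L 8516738 .L))))))

/-- A part of the tree. -/
def tbbbb : Tr :=
  (.N (.N (.N (.N (.N (.N (.N .L 8516742 .L) 8516743 .L) 8516744 (.N .L 8516746 .L)) 8516748 (.N (.N .L 8516750 .L) 8516751 (.N .L 8516764 .L))) 8516766 (.N (.N (.N (.N .L 8516800 .L) 8516802 .L) 8516808 (.N .L 8516810 .L)) 8516812 (.N (.N .L 8516814 .L) 8516815 (.N .L 8516824 .L)))) 8516828 (.N (.N (.N (.N (.N .L 8516830 .L) 8517120 .L) 8517184 (.N .L 8517192 .L)) 8517248 (.N (.N .L 8517312 .L) 8517320 (.N .L 8517336 .L))) 8517724 (.N (.N (.N (.N .L 8517725 .L) 8517727 .L) 8517848 (.N .L 8517852 .L)) 8517853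 (.N (.N .L 8517855 .L) 8517980 (.N .L 8517981 .L))))) 8517983 (.N (.N (.N (.N (.N (.N .L 8518108 .L) 8518109 .L) 8518111 (.N .L 8518236 .L)) 8518344 (.N (.N .L 8518360 .L) 8518364 (.N .L 8518365 .L))) 8518367 (.N (.N (.N (.N .L 8518492 .L) 8518616 .L) 8518620 (.N .L 8518621 .L)) 8518623 (.N (.N .L 8518728 .L) 8518732 (.N .L 8518748 .L)))) 8518856 (.N (.N (.N (.N (.N .L 8518860 .L) 8518872 .L) 8518876 (.N .L 8519168 .L)) 8519232 (.N (.N .L 8519240 .L) 8519244 (.N .L 8519260 .L))) 8519296 (.N (.N (.N (.N .L 8519360 .L) 8519368 .L) 8519372 (.N .L 8519384 .L)) 8519388 (.N (.N .L 8519552 .L) 8519640 (.N .L 8519644 .L))))))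

/-- The codes of the chambers of the set. -/
def tree : Tr :=
  (.N (.N (.N (.N taaaa 3876 taaab) 7445 (.N taaba 15359 taabb)) 31580 (.N (.N tabaa 62492 tabab) 65116 (.N tabba 130652 tabbb))) 4198165 (.N (.N (.N tbaaa 6294528 tbaab) 7342908 (.N tbaba 7473471 tbabb)) 7735072 (.N (.N tbbaa 8259104 tbbab) 8452188 (.N tbbba 8516739 tbbbb))))

end Q168.Arr.Ex
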