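import Pool.Agent.Q168.Arr.DataPlanes
import Pool.Agent.Q168.Arr.DataTree
import Pool.Agent.Q168.Arr.DataS
import Pool.Agent.Q168.Arr.DataN
import Pool.Agent.Q168.Arr.DataC

/-!
# The arrangement of twenty-four planes: verification of the data
-/

namespace Q168.Arr.Ex

/-- All the interior points of a list are correct. -/
def okL (l : List (ℕ × ℤ × ℤ × ℤ × ℤ)) : Bool :=
  l.all fun e => decide (e.1 < 2 ^ 24) && decide (0 < e.2.2.2.2) &&
    okW e.2.1 e.2.2.1 e.2.2.2.1 e.2.2.2.2 PL e.1

/-- A strictly increasing list. -/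
def incr : List ℕ → Bool
  | [] => true
  | [_] => true
  | a :: b :: l => Nat.blt a b && incr (b :: l)

lemma incr_pairwise : ∀ {l : List ℕ}, incr l = true → l.Pairwise (· < ·)
  | [], _ => List.Pairwise.nil
  | [a], _ => List.pairwise_singleton _ _
  | a :: b :: l, h => by
    rw [incr, Bool.and_eq_true, Nat.blt_eq] at h
    have ih := incr_pairwise h.2
    refine List.pairwise_cons.2 ⟨?_, ih⟩
    intro c hc
    rcases List.mem_cons.1 hc with rfl | hc
    · exact h.1
    · exact h.1.trans ((List.pairwise_cons.1 ih).1 c hc)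

lemma incr_nodup {l : List ℕ} (h : incr l = true) : l.Nodup :=
  (incr_pairwise h).imp fun h => h.ne

lemma okL_spec {l : List (ℕ × ℤ × ℤ × ℤ × ℤ)} (h : okL l = true) {q : ℕ}
    (hq : q ∈ l.map (·.1)) : q < 2 ^ PL.length ∧ (cellN PL q).Nonempty := by
  unfold okL at h
  rw [List.all_eq_true] at h
  obtain ⟨e, he, rfl⟩ := List.mem_map.1 hq
  have := h e he
  simp only [Bool.and_eq_true, decide_eq_true_eq] at this
  exact ⟨this.1.1, cellN_nonempty this.1.2 this.2⟩

/-- The list of all the codes of the set with interior points. -/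
def ws : List (ℕ × ℤ × ℤ × ℤ × ℤ) := ws0 ++ ws1 ++ ws2 ++ ws3 ++ ws4 ++ ws5 ++ ws6 ++ ws7 ++ ws8 ++ ws9

/-- The list of codes outside the set with interior points. -/
def wn : List (ℕ × ℤ × ℤ × ℤ × ℤ) := wn0 ++ wn1 ++ wn2 ++ wn3 ++ wn4 ++ wn5 ++ wn6 ++ wn7 ++ wn8 ++ wn9

theorem ws_codes : ws.map (·.1) = tree.toList := by decide +kernel

theorem ws0_ok : okL ws0 = true := by decide +kernel
theorem ws1_ok : okL ws1 = true := by decide +kernel
theorem ws2_ok : okL ws2 = true := by decide +kernel
theorem ws3_ok : okL ws3 = true := by decide +kernel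
theorem ws4_ok : okL ws4 = true := by decide +kernel
theorem ws5_ok : okL ws5 = true := by decide +kernel
theorem ws6_ok : okL ws6 = true := by decide +kernel
theorem ws7_ok : okL ws7 = true := by decide +kernel
theorem ws8_ok : okL ws8 = true := by decide +kernel
theorem ws9_ok : okL ws9 = true := by decide +kernel
theorem wn0_ok : okL wn0 = true := by decide +kernel
theorem wn1_ok : okL wn1 = true := by decide +kernel
theorem wn2_ok : okL wn2 = true := by decide +kernel
theorem wn3_ok : okL wn3 = true := by decide +kernel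
theorem wn4_ok : okL wn4 = true := by decide +kernel
theorem wn5_ok : okL wn5 = true := by decide +kernel
theorem wn6_ok : okL wn6 = true := by decide +kernel
theorem wn7_ok : okL wn7 = true := by decide +kernel
theorem wn8_ok : okL wn8 = true := by decide +kernel
theorem wn9_ok : okL wn9 = true := by decide +kernel

theorem ws_ok : okL ws = true := by
  unfold okL ws
  simp only [List.all_append, Bool.and_eq_true]
  exact ⟨⟨⟨⟨⟨⟨⟨⟨⟨ws0_ok, ws1_ok⟩, ws2_ok⟩, ws3_ok⟩, ws4_ok⟩, ws5_ok⟩, ws6_ok⟩, ws7_ok⟩, ws8_ok⟩, ws9_ok⟩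

theorem wn_ok : okL wn = true := by
  unfold okL wn
  simp only [List.all_append, Bool.and_eq_true]
  exact ⟨⟨⟨⟨⟨⟨⟨⟨⟨wn0_ok, wn1_ok⟩, wn2_ok⟩, wn3_ok⟩, wn4_ok⟩, wn5_ok⟩, wn6_ok⟩, wn7_ok⟩, wn8_ok⟩, wn9_ok⟩

theorem tree_incr : incr tree.toList = true := by decide +kernel
theorem wn_incr : incr (wn.map (·.1)) = true := by decide +kernel
theorem tree_length : tree.toList.length = 1160 := by decide +kernel
theorem wn_length : (wn.map (·.1)).length = 1160 := by decide +kernel
theorem tree_mem : tree.toList.all tree.mem = true := by decide +kernel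
theorem wn_notMem : (wn.map (·.1)).all (fun q => !tree.mem q) = true := by decide +kernel
theorem ct_ok : ct.all (fun t => okC PL t.1 t.2) = true := by decide +kernel
theorem circs_ct : circs.all (fun l => l.all fun m => ct.any fun t =>
    Nat.beq t.1.1 m.1 && Nat.beq t.1.2 m.2) = true := by decide +kernel
theorem circs_length : circs.length = PL.length := by decide +kernel
theorem gp3_ok : gp3 PL = true := by decide +kernel
theorem gp4_ok : (List.range PL.length).all (gp4 PL) = true := by decide +kernel
theorem bad_length : (tree.toList.flatMap fun q => (bad tree.mem circs 0 q).map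
    fun i => (q, i)).length ≤ 189 := by decide +kernel

theorem length_PL : PL.length = 24 := rfl

theorem hcirc : ∀ l ∈ circs, ∀ m ∈ l, ∃ c, okC PL m c = true := by
  intro l hl m hm
  have h1 := circs_ct
  rw [List.all_eq_true] at h1
  have h2 := h1 l hl
  rw [List.all_eq_true] at h2
  have h3 := h2 m hm
  rw [List.any_eq_true] at h3
  obtain ⟨t, ht, h4⟩ := h3
  rw [Bool.and_eq_true, Nat.beq_eq, Nat.beq_eq] at h4
  have h5 := ct_ok
  rw [List.all_eq_true] at h5
  have h6 := h5 t ht
  have h7 : t.1 = m := Prod.ext h4.1 h4.2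
  exact ⟨t.2, h7 ▸ h6⟩

theorem general_position : GeneralPosition (arr (phi PL) (rhs PL)) := by
  refine generalPosition gp3_ok (fun i hi => ?_) (by rw [length_PL]; norm_num)
  have h := gp4_ok
  rw [List.all_eq_true] at h
  exact h i (List.mem_range.2 hi)

/-- The set of chambers. -/
noncomputable def S : Set (chambers (arr (phi PL) (rhs PL))) := chSet PL tree.toList

theorem tree_spec : ∀ q ∈ tree.toList, q < 2 ^ PL.length ∧ (cellN PL q).Nonempty := by
  intro q hq
  rw [← ws_codes] at hq
  exact okL_spec ws_ok hq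

theorem ncard_S : S.ncard = 1160 := by
  unfold S
  rw [ncard_chSet tree_spec (incr_nodup tree_incr), tree_length]

theorem le_chambers : 2320 ≤ (chambers (arr (phi PL) (rhs PL))).ncard := by
  have h := le_ncard_chambers (PL := PL) (L := tree.toList ++ wn.map (·.1)) ?_ ?_
  · rw [List.length_append, tree_length, wn_length] at h
    exact h
  · intro q hq
    rcases List.mem_append.1 hq with hq | hq
    · exact tree_spec q hq
    · exact okL_spec wn_ok hq
  · rw [List.nodup_append']
    refine ⟨incr_nodup tree_incr, incr_nodup wn_incr, ?_⟩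
    intro q h1 h2
    have h3 := tree_mem
    rw [List.all_eq_true] at h3
    have h4 := wn_notMem
    rw [List.all_eq_true] at h4
    have h5 := h3 q h1
    have h6 := h4 q h2
    rw [h5] at h6
    exact absurd h6 (by simp)

theorem boundary_S : (edgeBoundary (chamberGraph (arr (phi PL) (rhs PL))) S).ncard ≤ 189 := by
  unfold S
  exact (boundary_le gp3_ok (by rw [length_PL]; norm_num) circs_length hcirc).trans bad_length

end Q168.Arr.Ex
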