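import Pool.Agent.Q168.Arr.Basic

/-!
# Integer arrangements of planes in `ℝ^3`: checkable certificates
-/

namespace Q168.Arr

open Module Set

/-- A plane `a x + b y + c z = e` with integer coefficients. -/
abbrev Pl := ℤ × ℤ × ℤ × ℤ

/-- The linear form of a plane. -/
def lin (p : Pl) : E 3 →ₗ[ℝ] ℝ where
  toFun x := (p.1 : ℝ) * x 0 + (p.2.1 : ℝ) * x 1 + (p.2.2.1 : ℝ) * x 2
  map_add' x y := by simp only [PiLp.add_apply]; ring
  map_smul' c x := by simp only [PiLp.smul_apply, smul_eq_mul, RingHom.id_apply]; ring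

lemma lin_apply (p : Pl) (x : E 3) :
    lin p x = (p.1 : ℝ) * x 0 + (p.2.1 : ℝ) * x 1 + (p.2.2.1 : ℝ) * x 2 := rfl

/-- The linear forms of a list of planes. -/
def phi (PL : List Pl) (i : Fin PL.length) : E 3 →ₗ[ℝ] ℝ := lin (PL.get i)

/-- The right hand sides of a list of planes. -/
def rhs (PL : List Pl) (i : Fin PL.length) : ℝ := ((PL.get i).2.2.2 : ℝ)

/-- The sign vector given by the binary digits of `q`. -/
def sv (n : ℕ) (q : ℕ) : Fin n → Bool := fun i => q.testBit i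

/-- The cell of the code `q`. -/
def cellN (PL : List Pl) (q : ℕ) : Set (E 3) := cell (phi PL) (rhs PL) (sv PL.length q)

/-! ### Witness points -/

/-- The point `(x/w, y/w, z/w)` has the sign vector `q`. -/
def okW (x y z w : ℤ) : List Pl → ℕ → Bool
  | [], _ => true
  | p :: l, q =>
    (bif q % 2 == 1 then decide (p.2.2.2 * w < p.1 * x + p.2.1 * y + p.2.2.1 * z)
      else decide (p.1 * x + p.2.1 * y + p.2.2.1 * z < p.2.2.2 * w)) && okW x y z w l (q / 2)

lemma okW_spec {x y z w : ℤ} : ∀ {l : List Pl} {q : ℕ}, okW x y z w l q = true →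
    ∀ i : Fin l.length,
      (q.testBit i = true → (l.get i).2.2.2 * w <
        (l.get i).1 * x + (l.get i).2.1 * y + (l.get i).2.2.1 * z) ∧
      (q.testBit i = false → (l.get i).1 * x + (l.get i).2.1 * y + (l.get i).2.2.1 * z <
        (l.get i).2.2.2 * w)
  | [], _, _, i => i.elim0
  | p :: l, q, h, i => by
    rw [okW, Bool.and_eq_true] at h
    obtain ⟨h1, h2⟩ := h
    refine Fin.cases ?_ (fun j => ?_) i
    · simp only [Fin.val_zero, Nat.testBit_zero, List.get_eq_getElem, List.getElem_cons_zero]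
      rcases hq : (q % 2 == 1) with _ | _
      · rw [hq, cond_false, decide_eq_true_eq] at h1
        have : q % 2 ≠ 1 := by simpa using hq
        refine ⟨fun h => absurd (by simpa using h) this, fun _ => h1⟩
      · rw [hq, cond_true, decide_eq_true_eq] at h1
        have : q % 2 = 1 := by simpa using hq
        refine ⟨fun _ => h1, fun h => absurd this (by simpa using h)⟩
    · have := okW_spec h2 j
      simpa [Nat.testBit_succ] using this

lemma cellN_nonempty {PL : List Pl} {q : ℕ} {x y z w : ℤ} (hw : 0 < w)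
    (h : okW x y z w PL q = true) : (cellN PL q).Nonempty := by
  have hw' : (0 : ℝ) < w := by exact_mod_cast hw
  refine ⟨!₂[(x : ℝ) / w, (y : ℝ) / w, (z : ℝ) / w], fun i => ?_⟩
  have hs := okW_spec h i
  have hl : phi PL i (!₂[(x : ℝ) / w, (y : ℝ) / w, (z : ℝ) / w]) =
      (((PL.get i).1 * x + (PL.get i).2.1 * y + (PL.get i).2.2.1 * z : ℤ) : ℝ) / w := by
    simp only [phi, lin_apply]
    simp
    field_simp
  rw [hl]
  unfold sv rhs
  constructor
  · intro h1
    rw [lt_div_iff₀ hw']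
    exact_mod_cast hs.1 h1
  · intro h1
    rw [div_lt_iff₀ hw']
    exact_mod_cast hs.2 h1

/-! ### Circuits -/

/-- The combination `∑ λ_t (a_t, b_t, c_t, e_t)` of a certificate. -/
def comb (PL : List Pl) : List (ℕ × ℤ) → Pl
  | [] => (0, 0, 0, 0)
  | (t, v) :: l =>
    let p := PL.getD t (0, 0, 0, 0)
    let s := comb PL l
    (v * p.1 + s.1, v * p.2.1 + s.2.1, v * p.2.2.1 + s.2.2.1, v * p.2.2.2 + s.2.2.2)

/-- The combination is the false inequality `0 - e > 0` with `0 < e`. -/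
def okS (s : Pl) : Bool :=
  decide (s.1 = 0) && decide (s.2.1 = 0) && decide (s.2.2.1 = 0) && decide (0 < s.2.2.2)

/-- A certificate that the pattern `m.2` on the digits in `m.1` is not realised. -/
def okC (PL : List Pl) (m : ℕ × ℕ) (c : List (ℕ × ℤ)) : Bool :=
  c.all (fun t => decide (t.1 < PL.length) && m.1.testBit t.1 &&
    ((m.2.testBit t.1 && decide (0 < t.2)) || (!m.2.testBit t.1 && decide (t.2 < 0)))) &&
  okS (comb PL c)

lemma comb_nonneg {PL : List Pl} {q : ℕ} {m : ℕ × ℕ} (hq : q &&& m.1 = m.2) {x : E 3}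
    (hx : x ∈ cellN PL q) : ∀ c : List (ℕ × ℤ),
    c.all (fun t => decide (t.1 < PL.length) && m.1.testBit t.1 &&
    ((m.2.testBit t.1 && decide (0 < t.2)) || (!m.2.testBit t.1 && decide (t.2 < 0)))) = true →
    0 ≤ ((comb PL c).1 : ℝ) * x 0 + ((comb PL c).2.1 : ℝ) * x 1 + ((comb PL c).2.2.1 : ℝ) * x 2
      - ((comb PL c).2.2.2 : ℝ)
  | [], _ => by simp [comb]
  | (t, v) :: c, h => by
    rw [List.all_cons, Bool.and_eq_true] at h
    obtain ⟨h1, h2⟩ := h
    have ih := comb_nonneg hq hx c h2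
    simp only [Bool.and_eq_true, Bool.or_eq_true, decide_eq_true_eq, Bool.not_eq_true'] at h1
    obtain ⟨⟨ht, hm⟩, hv⟩ := h1
    have hget : PL.getD t (0, 0, 0, 0) = PL.get ⟨t, ht⟩ := by
      simp [List.getD_eq_getElem?_getD, ht]
    have hb : q.testBit t = m.2.testBit t := by
      rw [← hq, Nat.testBit_land, hm, Bool.and_true]
    have hc := hx ⟨t, ht⟩
    unfold sv phi rhs at hc
    rw [lin_apply] at hc
    simp only at hc
    have hcomb : comb PL ((t, v) :: c) = (v * (PL.get ⟨t, ht⟩).1 + (comb PL c).1,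
        v * (PL.get ⟨t, ht⟩).2.1 + (comb PL c).2.1,
        v * (PL.get ⟨t, ht⟩).2.2.1 + (comb PL c).2.2.1,
        v * (PL.get ⟨t, ht⟩).2.2.2 + (comb PL c).2.2.2) := by
      rw [← hget]; rfl
    rw [hcomb]
    push_cast
    set p := PL.get ⟨t, ht⟩ with hp
    have key : 0 ≤ (v : ℝ) * ((p.1 : ℝ) * x 0 + (p.2.1 : ℝ) * x 1 + (p.2.2.1 : ℝ) * x 2
        - (p.2.2.2 : ℝ)) := by
      rcases hv with ⟨h3, h4⟩ | ⟨h3, h4⟩
      · have h5 : (0 : ℝ) < v := by exact_mod_cast h4
        have := hc.1 (hb.trans h3)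
        exact mul_nonneg h5.le (by linarith)
      · have h5 : (v : ℝ) < 0 := by exact_mod_cast h4
        have := hc.2 (hb.trans h3)
        exact mul_nonneg_of_nonpos_of_nonpos h5.le (by linarith)
    nlinarith

lemma cellN_empty {PL : List Pl} {q : ℕ} {m : ℕ × ℕ} {c : List (ℕ × ℤ)}
    (h : okC PL m c = true) (hq : q &&& m.1 = m.2) : cellN PL q = ∅ := by
  rw [Set.eq_empty_iff_forall_notMem]
  intro x hx
  unfold okC at h
  rw [Bool.and_eq_true] at h
  have h1 := comb_nonneg hq hx c h.1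
  have h2 := h.2
  unfold okS at h2
  simp only [Bool.and_eq_true, decide_eq_true_eq] at h2
  obtain ⟨⟨⟨h3, h4⟩, h5⟩, h6⟩ := h2
  rw [h3, h4, h5] at h1
  have h7 : (0 : ℝ) < ((comb PL c).2.2.2 : ℝ) := by exact_mod_cast h6
  simp at h1
  linarith

/-! ### General position -/

/-- The `3 × 3` determinant of the normals. -/
def det3 (p q r : Pl) : ℤ :=
  p.1 * (q.2.1 * r.2.2.1 - q.2.2.1 * r.2.1) - p.2.1 * (q.1 * r.2.2.1 - q.2.2.1 * r.1)
    + p.2.2.1 * (q.1 * r.2.1 - q.2.1 * r.1)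

/-- The `4 × 4` determinant of the planes. -/
def det4 (p q r s : Pl) : ℤ :=
  det3 q r s * p.2.2.2 - det3 p r s * q.2.2.2 + det3 p q s * r.2.2.2 - det3 p q r * s.2.2.2

/-- All three by three determinants are nonzero. -/
def gp3 (PL : List Pl) : Bool :=
  (List.range PL.length).all fun i => (List.range i).all fun j => (List.range j).all fun k =>
    decide (det3 (PL.getD i (0, 0, 0, 0)) (PL.getD j (0, 0, 0, 0)) (PL.getD k (0, 0, 0, 0)) ≠ 0)

/-- All four by four determinants with first index `i` are nonzero. -/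
def gp4 (PL : List Pl) (i : ℕ) : Bool :=
  (List.range i).all fun j => (List.range j).all fun k => (List.range k).all fun l =>
    decide (det4 (PL.getD i (0, 0, 0, 0)) (PL.getD j (0, 0, 0, 0)) (PL.getD k (0, 0, 0, 0))
      (PL.getD l (0, 0, 0, 0)) ≠ 0)

lemma getD_eq {PL : List Pl} (i : Fin PL.length) : PL.getD i (0, 0, 0, 0) = PL.get i := by
  simp [List.getD_eq_getElem?_getD]

lemma gp3_spec {PL : List Pl} (h : gp3 PL = true) {i j k : Fin PL.length} (hij : j < i)
    (hjk : k < j) : det3 (PL.get i) (PL.get j) (PL.get k) ≠ 0 := by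
  unfold gp3 at h
  simp only [List.all_eq_true, List.mem_range, decide_eq_true_eq] at h
  have := h i i.2 j hij k hjk
  rwa [getD_eq, getD_eq, getD_eq] at this

lemma gp4_spec {PL : List Pl} {i j k l : Fin PL.length} (h : gp4 PL i = true) (hij : j < i)
    (hjk : k < j) (hkl : l < k) : det4 (PL.get i) (PL.get j) (PL.get k) (PL.get l) ≠ 0 := by
  unfold gp4 at h
  simp only [List.all_eq_true, List.mem_range, decide_eq_true_eq] at h
  have := h j hij k hjk l hkl
  rwa [getD_eq, getD_eq, getD_eq, getD_eq] at this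

/-- Cramer's rule. -/
lemma solve3 {p q r : Pl} (h : det3 p q r ≠ 0) (u v w : ℝ) :
    ∃ x : E 3, lin p x = u ∧ lin q x = v ∧ lin r x = w := by
  have hD : ((det3 p q r : ℤ) : ℝ) ≠ 0 := by exact_mod_cast h
  set D : ℝ := ((det3 p q r : ℤ) : ℝ) with hDdef
  have hDe : D = (p.1 : ℝ) * ((q.2.1 : ℝ) * r.2.2.1 - q.2.2.1 * r.2.1)
      - p.2.1 * (q.1 * r.2.2.1 - q.2.2.1 * r.1) + p.2.2.1 * (q.1 * r.2.1 - q.2.1 * r.1) := by
    rw [hDdef]; unfold det3; push_cast; ring
  refine ⟨!₂[(u * ((q.2.1 : ℝ) * r.2.2.1 - q.2.2.1 * r.2.1)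
      - p.2.1 * (v * r.2.2.1 - q.2.2.1 * w) + p.2.2.1 * (v * r.2.1 - q.2.1 * w)) / D,
    ((p.1 : ℝ) * (v * r.2.2.1 - q.2.2.1 * w)
      - u * (q.1 * r.2.2.1 - q.2.2.1 * r.1) + p.2.2.1 * (q.1 * w - v * r.1)) / D,
    ((p.1 : ℝ) * ((q.2.1 : ℝ) * w - v * r.2.1)
      - p.2.1 * (q.1 * w - v * r.1) + u * (q.1 * r.2.1 - q.2.1 * r.1)) / D], ?_, ?_, ?_⟩
  · rw [lin_apply]
    simp
    field_simp
    rw [hDe]; ring
  · rw [lin_apply]
    simp
    field_simp
    rw [hDe]; ring
  · rw [lin_apply]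
    simp
    field_simp
    rw [hDe]; ring

end Q168.Arr
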