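import Pool.Agent.Q168.Arr.GP

/-!
# Counting chambers and boundary edges from certificates
-/

namespace Q168.Arr

open Module Set

/-- Binary trees of codes. -/
inductive Tr where
  | L : Tr
  | N : Tr → ℕ → Tr → Tr

/-- Search in a tree. -/
def Tr.mem : Tr → ℕ → Bool
  | .L, _ => false
  | .N l q r, x => bif Nat.blt x q then l.mem x else bif Nat.blt q x then r.mem x else true

/-- The codes of a tree. -/
def Tr.toList : Tr → List ℕ
  | .L => []
  | .N l q r => l.toList ++ q :: r.toList

lemma Tr.mem_toList : ∀ {t : Tr} {x : ℕ}, t.mem x = true → x ∈ t.toList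
  | .L, _, h => by simp [Tr.mem] at h
  | .N l q r, x, h => by
    rw [Tr.mem] at h
    rw [Tr.toList, List.mem_append, List.mem_cons]
    rcases h1 : Nat.blt x q with _ | _
    · rw [h1, cond_false] at h
      rcases h2 : Nat.blt q x with _ | _
      · have a1 : ¬ x < q := by
          intro h'
          have : Nat.blt x q = true := by rw [Nat.blt_eq]; exact h'
          rw [this] at h1; exact absurd h1 (by simp)
        have a2 : ¬ q < x := by
          intro h'
          have : Nat.blt q x = true := by rw [Nat.blt_eq]; exact h'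
          rw [this] at h2; exact absurd h2 (by simp)
        right; left; omega
      · rw [h2, cond_true] at h
        exact Or.inr (Or.inr (Tr.mem_toList h))
    · rw [h1, cond_true] at h
      exact Or.inl (Tr.mem_toList h)

/-- The flips of `q` that are neither in the set nor excluded by a circuit. -/
def bad (mem : ℕ → Bool) : List (List (ℕ × ℕ)) → ℕ → ℕ → List ℕ
  | [], _, _ => []
  | cs :: l, i, q =>
    bif mem (q ^^^ 2 ^ i) || cs.any (fun m => (q ^^^ 2 ^ i) &&& m.1 == m.2)
      then bad mem l (i + 1) q else i :: bad mem l (i + 1) q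

lemma bad_spec {mem : ℕ → Bool} : ∀ {circs : List (List (ℕ × ℕ))} {i q : ℕ} (j : ℕ)
    (hj : j < circs.length), (i + j) ∈ bad mem circs i q ∨ mem (q ^^^ 2 ^ (i + j)) = true ∨
      ∃ m ∈ circs[j], (q ^^^ 2 ^ (i + j)) &&& m.1 = m.2
  | [], _, _, j, hj => by simp at hj
  | cs :: l, i, q, 0, _ => by
    rw [bad]
    rcases h : (mem (q ^^^ 2 ^ i) || cs.any (fun m => (q ^^^ 2 ^ i) &&& m.1 == m.2)) with _ | _
    · left
      rw [cond_false]
      simp
    · right
      rw [Bool.or_eq_true] at h
      rcases h with h | h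
      · left; simpa using h
      · right
        rw [List.any_eq_true] at h
        obtain ⟨m, hm, hm2⟩ := h
        exact ⟨m, by simpa using hm, by simpa using hm2⟩
  | cs :: l, i, q, j + 1, hj => by
    have ih := bad_spec (mem := mem) (circs := l) (i := i + 1) (q := q) j (by simpa using hj)
    have he : i + 1 + j = i + (j + 1) := by ring
    rw [he] at ih
    rcases ih with ih | ih | ih
    · left
      rw [bad]
      rcases (mem (q ^^^ 2 ^ i) || cs.any (fun m => (q ^^^ 2 ^ i) &&& m.1 == m.2)) with _ | _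
      · rw [cond_false]
        exact List.mem_cons_of_mem _ ih
      · rw [cond_true]
        exact ih
    · exact Or.inr (Or.inl ih)
    · right; right
      simpa using ih

lemma sv_inj {n q q' : ℕ} (hq : q < 2 ^ n) (hq' : q' < 2 ^ n) (h : sv n q = sv n q') : q = q' := by
  apply Nat.eq_of_testBit_eq
  intro i
  rcases lt_or_ge i n with hi | hi
  · exact congrFun h ⟨i, hi⟩
  · rw [Nat.testBit_lt_two_pow (lt_of_lt_of_le hq (Nat.pow_le_pow_right (by norm_num) hi)),
      Nat.testBit_lt_two_pow (lt_of_lt_of_le hq' (Nat.pow_le_pow_right (by norm_num) hi))]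

lemma sv_flip {n q : ℕ} (i : Fin n) :
    Function.update (sv n q) i (!sv n q i) = sv n (q ^^^ 2 ^ (i : ℕ)) := by
  funext j
  unfold sv
  rw [Nat.testBit_xor, Nat.testBit_two_pow]
  by_cases h : j = i
  · subst h
    simp
  · rw [Function.update_of_ne h]
    have : (i : ℕ) ≠ (j : ℕ) := fun h' => h (Fin.ext h'.symm)
    simp [this]

section Main

variable {PL : List Pl}

/-- The set of chambers with codes in `SL`. -/
def chSet (PL : List Pl) (SL : List ℕ) : Set (chambers (arr (phi PL) (rhs PL))) :=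
  {C | ∃ q ∈ SL, C.1 = cellN PL q}

lemma chambers_finite : (chambers (arr (phi PL) (rhs PL))).Finite := by
  apply Set.Finite.subset (Set.finite_range fun σ : Fin PL.length → Bool => cell (phi PL) (rhs PL) σ)
  intro C hC
  obtain ⟨σ, -, rfl⟩ := (mem_chambers_arr _ _).1 hC
  exact ⟨σ, rfl⟩

lemma cellN_mem {q : ℕ} (h : (cellN PL q).Nonempty) :
    cellN PL q ∈ chambers (arr (phi PL) (rhs PL)) :=
  (mem_chambers_arr _ _).2 ⟨_, h, rfl⟩

lemma cellN_injOn {L : List ℕ} (hL : ∀ q ∈ L, q < 2 ^ PL.length ∧ (cellN PL q).Nonempty) :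
    Set.InjOn (cellN PL) {q | q ∈ L} := by
  intro q hq q' hq' h
  obtain ⟨x, hx⟩ := (hL q hq).2
  have hx' : x ∈ cellN PL q' := by
    have : cellN PL q = cellN PL q' := h
    rwa [this] at hx
  exact sv_inj (hL q hq).1 (hL q' hq').1 (cell_eq _ _ hx hx')

lemma ncard_image {L : List ℕ} (hL : ∀ q ∈ L, q < 2 ^ PL.length ∧ (cellN PL q).Nonempty)
    (hnd : L.Nodup) : (cellN PL '' {q | q ∈ L}).ncard = L.length := by
  rw [(cellN_injOn hL).ncard_image]
  have : {q | q ∈ L} = (L.toFinset : Set ℕ) := by ext; simp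
  rw [this, Set.ncard_coe_finset, List.toFinset_card_of_nodup hnd]

lemma ncard_chSet {L : List ℕ} (hL : ∀ q ∈ L, q < 2 ^ PL.length ∧ (cellN PL q).Nonempty)
    (hnd : L.Nodup) : (chSet PL L).ncard = L.length := by
  rw [← ncard_image hL hnd, ← Set.ncard_image_of_injective (chSet PL L) Subtype.val_injective]
  congr 1
  ext C
  simp only [Set.mem_image, chSet, Set.mem_ofPred_eq]
  constructor
  · rintro ⟨D, ⟨q, hq, hD⟩, rfl⟩
    exact ⟨q, hq, hD.symm⟩
  · rintro ⟨q, hq, rfl⟩
    exact ⟨⟨_, cellN_mem (hL q hq).2⟩, ⟨q, hq, rfl⟩, rfl⟩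

lemma le_ncard_chambers {L : List ℕ}
    (hL : ∀ q ∈ L, q < 2 ^ PL.length ∧ (cellN PL q).Nonempty) (hnd : L.Nodup) :
    L.length ≤ (chambers (arr (phi PL) (rhs PL))).ncard := by
  rw [← ncard_image hL hnd]
  apply Set.ncard_le_ncard _ chambers_finite
  rintro _ ⟨q, hq, rfl⟩
  exact cellN_mem (hL q hq).2

/-- The number of boundary edges is bounded by the number of bad flips. -/
lemma boundary_le (h3 : gp3 PL = true) (hn : 3 ≤ PL.length) {t : Tr}
    {circs : List (List (ℕ × ℕ))} (hlen : circs.length = PL.length)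
    (hcirc : ∀ l ∈ circs, ∀ m ∈ l, ∃ c, okC PL m c = true) :
    (edgeBoundary (chamberGraph (arr (phi PL) (rhs PL))) (chSet PL t.toList)).ncard ≤
      (t.toList.flatMap fun q => (bad t.mem circs 0 q).map fun i => (q, i)).length := by
  classical
  set B := t.toList.flatMap fun q => (bad t.mem circs 0 q).map fun i => (q, i) with hB
  have hinj : Function.Injective (Sym2.map (Subtype.val :
      chambers (arr (phi PL) (rhs PL)) → Set (E 3))) :=
    Sym2.map.injective Subtype.val_injective
  rw [← Set.ncard_image_of_injective _ hinj]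
  have hsub : Sym2.map (Subtype.val : chambers (arr (phi PL) (rhs PL)) → Set (E 3)) ''
      (edgeBoundary (chamberGraph (arr (phi PL) (rhs PL))) (chSet PL t.toList)) ⊆
      (fun p : ℕ × ℕ => s(cellN PL p.1, cellN PL (p.1 ^^^ 2 ^ p.2))) '' (B.toFinset : Set (ℕ × ℕ)) := by
    rintro _ ⟨e, ⟨he, u, v, hu, hv, rfl⟩, rfl⟩
    rw [SimpleGraph.mem_edgeSet] at he
    obtain ⟨q, hq, huq⟩ := hu
    obtain ⟨τ, hτ, hvτ⟩ := (mem_chambers_arr _ _).1 v.2
    obtain ⟨i, hi⟩ := adj_sign (phi PL) (rhs PL) (hyp_injective h3 hn) he huq hvτ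
    have hvc : v.1 = cellN PL (q ^^^ 2 ^ (i : ℕ)) := by
      rw [hvτ, hi, sv_flip]; rfl
    have hil : (i : ℕ) < circs.length := by rw [hlen]; exact i.2
    have hbad : (q, (i : ℕ)) ∈ B := by
      have := bad_spec (mem := t.mem) (circs := circs) (i := 0) (q := q) i hil
      rw [Nat.zero_add] at this
      rcases this with h | h | ⟨m, hm, h⟩
      · rw [hB, List.mem_flatMap]
        exact ⟨q, hq, List.mem_map.2 ⟨_, h, rfl⟩⟩
      · exact absurd ⟨_, Tr.mem_toList h, hvc⟩ hv
      · obtain ⟨c, hc⟩ := hcirc _ (List.getElem_mem hil) m hm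
        have := cellN_empty hc h
        have hne := chambers_nonempty v.2
        rw [hvc, this] at hne
        exact absurd hne (by simp)
    refine ⟨(q, (i : ℕ)), by simpa using hbad, ?_⟩
    rw [Sym2.map_mk]
    rw [huq, hvc]
  refine (Set.ncard_le_ncard hsub (Set.toFinite _)).trans ?_
  refine (Set.ncard_image_le (Set.toFinite _)).trans ?_
  rw [Set.ncard_coe_finset]
  exact List.toFinset_card_le _

end Main

end Q168.Arr
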