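import Pool.Agent.Q168.Arr.Count

/-!
# The arrangement of twenty-four planes: data

The planes `a x + b y + c z = e`.
-/

namespace Q168.Arr.Ex

/-- The planes. -/
def PL : List Pl :=
  [(7, 39, 9, -29),
   (6, 39, 1, -12),
   (6, 29, 10, -46),
   (12, 21, 40, -51),
   (11, 34, 33, -62),
   (-1, 13, 30, -30),
   (4, -8, 23, 6),
   (5, -17, 29, 45),
   (-6, -40, 32, -45),
   (-5, -36, 11, 4),
   (-7, -23, -19, 29),
   (-4, -31, 13, -7),
   (27, 6, -1, 10),
   (19, 4, 2, 24),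
   (36, 7, 9, 63),
   (35, 8, 16, 82),
   (12, -2, 33, 88),
   (-24, -1, 30, 265),
   (-5, 2, 14, 128),
   (-7, 5, 27, 270),
   (-29, -1, 28, 242),
   (-40, -1, 30, 88),
   (-40, -4, 22, 56),
   (6, -2, 21, 35)]

end Q168.Arr.Ex
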