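import Pool.Agent.Q168.Arr.Core

/-!
# General position from determinants
-/

namespace Q168.Arr

open Module Set

variable {PL : List Pl}

/-- The values of at most three of the linear forms can be prescribed. -/
lemma solve (h3 : gp3 PL = true) (hn : 3 ≤ PL.length) {J : Finset (Fin PL.length)}
    (hJ : J.card ≤ 3) (r : Fin PL.length → ℝ) : ∃ x : E 3, ∀ t ∈ J, phi PL t x = r t := by
  obtain ⟨K, hJK, hK⟩ := Finset.exists_superset_card_eq hJ (by simpa using hn)
  set e := K.orderEmbOfFin hK with he
  have h01 : e 0 < e 1 := e.strictMono (by decide)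
  have h12 : e 1 < e 2 := e.strictMono (by decide)
  obtain ⟨x, hx2, hx1, hx0⟩ := solve3 (gp3_spec h3 h12 h01) (r (e 2)) (r (e 1)) (r (e 0))
  refine ⟨x, fun t ht => ?_⟩
  have : t ∈ Set.range e := by
    rw [he, Finset.range_orderEmbOfFin]
    exact hJK ht
  obtain ⟨s, rfl⟩ := this
  fin_cases s
  · exact hx0
  · exact hx1
  · exact hx2

/-- Distinct indices give distinct planes. -/
lemma hyp_injective (h3 : gp3 PL = true) (hn : 3 ≤ PL.length) :
    Function.Injective fun i => hyp (phi PL i) (rhs PL i) := by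
  intro i j hij
  by_contra hne
  obtain ⟨x, hx⟩ := solve h3 hn (J := {i, j})
    (le_trans (Finset.card_insert_le _ _) (by simp))
    (Function.update (rhs PL) j (rhs PL j + 1))
  have h1 : x ∈ hyp (phi PL i) (rhs PL i) := by
    rw [mem_hyp, hx i (by simp), Function.update_of_ne hne]
  have h2 := hx j (by simp)
  rw [Function.update_self] at h2
  have h3 : x ∈ hyp (phi PL j) (rhs PL j) := by
    have : hyp (phi PL i) (rhs PL i) = hyp (phi PL j) (rhs PL j) := hij
    rwa [this] at h1
  rw [mem_hyp, h2] at h3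
  linarith

/-- The intersection of a subfamily. -/
lemma mem_iInf_sub (h3 : gp3 PL = true) (hn : 3 ≤ PL.length)
    {T : Finset (Flat 3)} (hT : T ⊆ arr (phi PL) (rhs PL)) :
    ∃ J : Finset (Fin PL.length), J.card = T.card ∧
      ∀ x : E 3, x ∈ (⨅ H ∈ T, H : Flat 3) ↔ ∀ t ∈ J, phi PL t x = rhs PL t := by
  classical
  have hinj := hyp_injective h3 hn
  refine ⟨Finset.univ.filter fun i => hyp (phi PL i) (rhs PL i) ∈ T, ?_, fun x => ?_⟩
  · rw [← Finset.card_image_of_injective _ hinj]
    congr 1
    ext H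
    simp only [Finset.mem_image, Finset.mem_filter, Finset.mem_univ, true_and]
    constructor
    · rintro ⟨i, hi, rfl⟩
      exact hi
    · intro hH
      obtain ⟨i, rfl⟩ := (mem_arr _ _).1 (hT hH)
      exact ⟨i, hH, rfl⟩
  · simp only [AffineSubspace.mem_iInf_iff, Finset.mem_filter, Finset.mem_univ, true_and]
    constructor
    · intro h t ht
      exact h _ ht
    · intro h H hH
      obtain ⟨i, rfl⟩ := (mem_arr _ _).1 (hT hH)
      exact h i hH

/-- General position. -/
theorem generalPosition (h3 : gp3 PL = true) (h4 : ∀ i < PL.length, gp4 PL i = true)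
    (hn : 3 ≤ PL.length) : GeneralPosition (arr (phi PL) (rhs PL)) := by
  classical
  constructor
  · intro T hT hc
    obtain ⟨J, hJ, hmem⟩ := mem_iInf_sub h3 hn hT
    have hJ3 : J.card ≤ 3 := hJ ▸ hc
    obtain ⟨p, hp⟩ := solve h3 hn hJ3 (rhs PL)
    have hpm : p ∈ (⨅ H ∈ T, H : Flat 3) := (hmem p).2 hp
    have hcom : common T = pts (⨅ H ∈ T, H : Flat 3) := by
      ext x
      simp only [common, pts, Set.mem_ofPred_eq, SetLike.mem_coe, AffineSubspace.mem_iInf_iff]
    refine ⟨(⨅ H ∈ T, H : Flat 3), hcom, ⟨p, hpm⟩, ?_⟩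
    unfold dimFlat
    let Ψ : E 3 →ₗ[ℝ] (J → ℝ) := LinearMap.pi fun t => phi PL t.1
    have hΨ : LinearMap.range Ψ = ⊤ := by
      rw [LinearMap.range_eq_top]
      intro r
      obtain ⟨x, hx⟩ := solve h3 hn hJ3 (fun t => if h : t ∈ J then r ⟨t, h⟩ else 0)
      refine ⟨x, ?_⟩
      funext t
      have := hx t.1 t.2
      simp only [t.2, dif_pos] at this
      exact this
    have hker : (⨅ H ∈ T, H : Flat 3).direction = LinearMap.ker Ψ := by
      ext v
      rw [AffineSubspace.mem_direction_iff_eq_vsub_right hpm, LinearMap.mem_ker]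
      constructor
      · rintro ⟨x, hx, rfl⟩
        funext t
        have h1 := (hmem x).1 hx t.1 t.2
        have h2 := hp t.1 t.2
        change phi PL t.1 (x -ᵥ p) = 0
        rw [vsub_eq_sub, map_sub, h1, h2, sub_self]
      · intro hv
        refine ⟨v + p, (hmem _).2 fun t ht => ?_, by simp⟩
        have h1 : phi PL t v = 0 := congrFun hv ⟨t, ht⟩
        rw [map_add, h1, zero_add]
        exact hp t ht
    have hrank := LinearMap.finrank_range_add_finrank_ker Ψ
    rw [hΨ, finrank_top] at hrank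
    rw [hker, ← hJ]
    simp only [Module.finrank_fintype_fun_eq_card, Fintype.card_coe, finrank_euclideanSpace,
      Fintype.card_fin] at hrank
    omega
  · intro T hT hc
    obtain ⟨J, hJ, hmem⟩ := mem_iInf_sub h3 hn hT
    rw [Set.eq_empty_iff_forall_notMem]
    intro x hx
    have hx' := (hmem x).1 (by
      simp only [AffineSubspace.mem_iInf_iff]
      exact hx)
    have hJ4 : J.card = 4 := by rw [hJ, hc]
    set e := J.orderEmbOfFin hJ4 with he
    have h01 : e 0 < e 1 := e.strictMono (by decide)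
    have h12 : e 1 < e 2 := e.strictMono (by decide)
    have h23 : e 2 < e 3 := e.strictMono (by decide)
    have hall : ∀ s, phi PL (e s) x = rhs PL (e s) := fun s =>
      hx' _ (J.orderEmbOfFin_mem hJ4 s)
    have hdet := gp4_spec (h4 (e 3) (e 3).2) h23 h12 h01
    apply hdet
    have e0 := hall 0
    have e1 := hall 1
    have e2 := hall 2
    have e3 := hall 3
    unfold phi rhs at e0 e1 e2 e3
    rw [lin_apply] at e0 e1 e2 e3
    have hR : ((det4 (PL.get (e 3)) (PL.get (e 2)) (PL.get (e 1)) (PL.get (e 0)) : ℤ) : ℝ) = 0 := by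
      unfold det4 det3
      push_cast
      rw [← e0, ← e1, ← e2, ← e3]
      ring
    exact_mod_cast hR

end Q168.Arr
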